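import Pool.Agent.PJC.Stmts

/-!
# Squad PJC: row TRN (helper92)
-/

set_option autoImplicit false

namespace Pool.Agent.PJC.H92

open Module Pool.Agent.Helper18_Proj

theorem trn (hdua : DuaStmt) (hjoh : JohStmt) : TrnStmt := by
  intro n ε hn he0 he1 hlt
  unfold rho at hlt
  obtain ⟨X, hlt⟩ := lt_iSup_iff.1 hlt
  obtain ⟨i1, hlt⟩ := lt_iSup_iff.1 hlt
  obtain ⟨i2, hlt⟩ := lt_iSup_iff.1 hlt
  obtain ⟨i3, hlt⟩ := lt_iSup_iff.1 hlt
  obtain ⟨hX, hlt⟩ := lt_iSup_iff.1 hlt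
  obtain ⟨T, hT⟩ := hjoh n X hn hX
  obtain ⟨p, q, hp, hd⟩ := hdua n X T
  refine ⟨p, q, hd, fun v => by rw [hp]; exact (hT v).1, fun v => by rw [hp]; exact (hT v).2, ?_⟩
  intro f z hfz
  -- the functional and the projection
  let φ : X →ₗ[ℝ] ℝ := (innerSL ℝ f).toLinearMap ∘ₗ T.symm.toLinearMap
  have hφ : ∀ x, φ x = inner ℝ f (T.symm x) := fun x => rfl
  have hφz : φ (T z) = 1 := by rw [hφ, LinearEquiv.symm_apply_apply, hfz]
  let P0 : X →ₗ[ℝ] X := LinearMap.id - φ.smulRight (T z)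
  have hP0 : ∀ x, P0 x = x - φ x • T z := fun x => rfl
  let P : X →L[ℝ] X := LinearMap.toContinuousLinearMap P0
  have hP : ∀ x, P x = x - φ x • T z := fun x => rfl
  have hproj : IsProj (LinearMap.ker φ) P := by
    have h2 : ∀ y ∈ LinearMap.ker φ, P y = y := fun y hy => by
      rw [hP, LinearMap.mem_ker.1 hy, zero_smul, sub_zero]
    refine ⟨?_, h2⟩
    ext y
    constructor
    · rintro ⟨x, rfl⟩
      have h3 : φ (P x) = 0 := by
        rw [hP, map_sub, map_smul, hφz, smul_eq_mul, mul_one, sub_self]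
      exact LinearMap.mem_ker.2 h3
    · intro hy
      exact ⟨y, h2 y hy⟩
  have hφ0 : φ ≠ 0 := fun h => by
    rw [h, LinearMap.zero_apply] at hφz
    exact zero_ne_one hφz
  have hfr : finrank ℝ (LinearMap.ker φ) + 1 = finrank ℝ X :=
    Module.Dual.finrank_ker_add_one_of_ne_zero hφ0
  have h1 : minHyperplane X ≤ ENNReal.ofReal ‖P‖ :=
    (iInf₂_le (LinearMap.ker φ) hfr).trans (iInf₂_le P hproj)
  have h2 : 2 - ε < ‖P‖ := by
    have h3 := hlt.trans_le h1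
    exact (ENNReal.ofReal_lt_ofReal_iff_of_nonneg (by linarith)).1 h3
  obtain ⟨x, hx1, hx2⟩ := P.exists_lt_apply_of_lt_opNorm h2
  obtain ⟨g, hg1, hg2⟩ := hd.exQ (T.symm (P x))
  have h4 : T.symm (P x) = T.symm x - (inner ℝ f (T.symm x) : ℝ) • z := by
    rw [hP, map_sub, map_smul, LinearEquiv.symm_apply_apply, hφ]
  refine ⟨g, T.symm x, hg1, ?_, ?_⟩
  · rw [hp, LinearEquiv.apply_symm_apply]
    exact hx1.le
  · rw [hp, LinearEquiv.apply_symm_apply, h4, inner_sub_right, inner_smul_right] at hg2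
    rw [hg2]
    exact hx2.le

end Pool.Agent.PJC.H92
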